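import Mathlib

namespace Pool.Agent.H.MP_4bd73f_an

open Finset Filter Topology

theorem var (g : ℕ → ℕ → ℝ) (C : ℝ) (N L r : ℕ) (hL : 1 ≤ L) (hr0 : r ≠ 0) (hC : 0 ≤ C)
    (h0 : ∀ p q, 0 ≤ g p q) (hz : ∀ p, g p p = 0)
    (h1 : ∀ p p' q' q, p ≤ p' → p' ≤ q' → q' ≤ q → g p' q' ≤ C * g p q)
    (h2 : ∀ p q, 0 < g p q → ∀ t : ℕ → ℕ, p ≤ t 0 → ¬ ∀ i < N, t i + L ≤ t (i + 1) ∧ t (i + 1) ≤ q ∧
      g p q / 2 ≤ g (t i + L) (t (i + 1))) (hr : (2 * N : ℝ) ≤ 2 ^ r) (n : ℕ) :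
    ∀ p q, q - p = n → ∑ k ∈ Ico p q, g k (k + 1) ^ r ≤ 2 * N * (L + 1) * C ^ r * g p q ^ r := by
  induction n using Nat.strong_induction_on with
  | _ n ih =>
  intro p q hn
  set M := g p q with hM
  set D : ℝ := 2 * N * (L + 1) * C ^ r with hD
  have hD0 : 0 ≤ D := by positivity
  have hM0 : 0 ≤ M := h0 p q
  have s1 : ∀ u v, p ≤ u → v ≤ q → ∀ l : ℕ, v ≤ u + l →
      ∑ k ∈ Ico u v, g k (k + 1) ^ r ≤ l * (C * M) ^ r := fun u v hu hv l hl => by
    refine (sum_le_card_nsmul _ _ ((C * M) ^ r) fun k hk => pow_le_pow_left₀ (h0 _ _)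
      (h1 _ _ _ _ (hu.trans (mem_Ico.1 hk).1) k.le_succ ((mem_Ico.1 hk).2.trans_le hv)) r).trans ?_
    rw [Nat.card_Ico, nsmul_eq_mul]
    gcongr
    omega
  rcases hM0.eq_or_lt with h | h
  · simpa [← h, hr0] using s1 p q le_rfl le_rfl q le_add_self
  have s2 : ∀ a b, p ≤ a → a + L ≤ b → b ≤ q → g (a + L) b < M / 2 →
      ∑ k ∈ Ico a b, g k (k + 1) ^ r ≤ L * (C * M) ^ r + D * (M / 2) ^ r := fun a b h3 h4 h5 h6 => by
    rw [← sum_Ico_consecutive _ (Nat.le_add_right a L) h4]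
    refine add_le_add (s1 _ _ h3 (h4.trans h5) L le_rfl) ((ih _ (by omega) _ _ rfl).trans ?_)
    exact mul_le_mul_of_nonneg_left (pow_le_pow_left₀ (h0 _ _) h6.le r) hD0
  have p1 : 0 ≤ (C * M) ^ r := by positivity
  have p2 : 0 ≤ D * (M / 2) ^ r := by positivity
  have key : ∀ j a, p ≤ a → (∀ t : ℕ → ℕ, t 0 = a → ¬ ∀ i < j, t i + L ≤ t (i + 1) ∧ t (i + 1) ≤ q ∧
      M / 2 ≤ g (t i + L) (t (i + 1))) →
      ∑ k ∈ Ico a q, g k (k + 1) ^ r ≤ j * ((L + 1) * (C * M) ^ r + D * (M / 2) ^ r) := by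
    intro j
    induction j with
    | zero => exact fun a _ h => absurd (by simp) (h (fun _ => a) rfl)
    | succ j ihj =>
      intro a ha h3
      have p3 : 0 ≤ j * ((L + 1) * (C * M) ^ r + D * (M / 2) ^ r) := by positivity
      rw [Nat.cast_succ, add_one_mul]
      by_cases h4 : q ≤ a + L
      · linarith [s1 a q ha le_rfl L h4]
      by_cases h5 : ∃ b, a + L ≤ b ∧ b ≤ q ∧ M / 2 ≤ g (a + L) b
      · obtain ⟨h6, h7, h8⟩ := Nat.find_spec h5
        obtain ⟨b, hb⟩ : ∃ b, Nat.find h5 = b + 1 := Nat.exists_eq_succ_of_ne_zero (by omega)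
        have h9 := Nat.find_min h5 (m := b) (by omega)
        rw [hb] at h6 h7 h8
        have h10 : a + L ≤ b := by
          refine Nat.le_of_lt_succ (h6.lt_of_ne fun h => ?_)
          rw [← h, hz] at h8
          linarith
        have h11 := s2 a b ha h10 (by omega) (not_le.1 fun h => h9 ⟨h10, by omega, h⟩)
        have h12 := s1 b (b + 1) (by omega) h7 1 le_rfl
        have h13 := ihj (b + 1) (by omega) fun t ht h => h3 (fun i => Nat.casesOn i a t) rfl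
          fun i hi => by
            cases i with
            | zero => exact ⟨h6.trans ht.ge, ht.le.trans h7, h8.trans_eq (congrArg _ ht.symm)⟩
            | succ i => exact h i (by omega)
        rw [← sum_Ico_consecutive _ (show a ≤ b + 1 by omega) h7,
          ← sum_Ico_consecutive _ (show a ≤ b by omega) b.le_succ]
        push_cast at h12
        linarith
      · linarith [s2 a q ha (by omega) le_rfl (not_le.1 fun h => h5 ⟨q, by omega, le_rfl, h⟩)]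
  refine (key N p le_rfl fun t ht => h2 p q h t ht.ge).trans ?_
  have h3 : N * (D * (M / 2) ^ r) ≤ D / 2 * M ^ r := by
    rw [div_pow, ← mul_div_assoc, ← mul_div_assoc, div_le_iff₀ (by positivity)]
    nlinarith [mul_nonneg hD0 (pow_nonneg hM0 r)]
  rw [mul_add, mul_pow]
  linarith

theorem james {𝕜 X Y : Type} [RCLike 𝕜] [NormedAddCommGroup X] [NormedSpace 𝕜 X]
    [NormedAddCommGroup Y] [NormedSpace 𝕜 Y] [UniformConvexSpace Y] (e : X ≃L[𝕜] Y) {κ : ℝ}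
    (hκ : 0 < κ) : ∃ k : ℕ, ∀ (s : ℕ → X) (R : ℝ), 0 < R → (∀ j < 2 ^ (k + 1), ‖s j‖ ≤ R) →
      ¬ ∀ i ≤ k, ∀ m, m + 2 ^ i + 2 ^ i ≤ 2 ^ (k + 1) →
        κ * R * 2 ^ i ≤ ‖∑ j ∈ range (2 ^ i), (s (m + 2 ^ i + j) - s (m + j))‖ := by
  let := NormedSpace.restrictScalars ℝ 𝕜 Y
  set a := ‖(e : X →L[𝕜] Y)‖ + 1 with ha
  set b := ‖(e.symm : Y →L[𝕜] X)‖ + 1 with hb
  have ha0 : 0 < a := by positivity
  have hb0 : 0 < b := by positivity
  have hε : 0 < κ / (a * b) := by positivity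
  obtain ⟨δ, h1, h2⟩ := exists_forall_closed_ball_dist_add_le_two_sub Y hε
  set ρ := 1 - min δ 1 / 2 with hρ
  have h3 : 0 < ρ := by linarith [min_le_right δ 1]
  have h4 : ρ < 1 := by linarith [lt_min h1 one_pos]
  obtain ⟨k, hk⟩ := exists_pow_lt_of_lt_one (half_pos hε) h4
  refine ⟨k, fun s R hR h5 h6 => ?_⟩
  have h7 : ∀ i ≤ k, ∀ m, m + 2 ^ i + 2 ^ i ≤ 2 ^ (k + 1) → κ / (a * b) * (2 ^ i * (a * R)) ≤
      ‖∑ j ∈ range (2 ^ i), e (s (m + 2 ^ i + j)) - ∑ j ∈ range (2 ^ i), e (s (m + j))‖ :=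
    fun i hi m hm => by
      have h7 := (e.symm : Y →L[𝕜] X).le_opNorm
        (e (∑ j ∈ range (2 ^ i), (s (m + 2 ^ i + j) - s (m + j))))
      rw [ContinuousLinearEquiv.coe_coe, e.symm_apply_apply] at h7
      simp only [← sum_sub_distrib, ← map_sub, ← map_sum]
      rw [show κ / (a * b) * (2 ^ i * (a * R)) = κ * R * 2 ^ i / b by field_simp, div_le_iff₀' hb0]
      exact (h6 i hi m hm).trans (h7.trans (by gcongr; linarith))
  have h8 : ∀ i ≤ k, ∀ m, m + 2 ^ i ≤ 2 ^ (k + 1) →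
      ‖∑ j ∈ range (2 ^ i), e (s (m + j))‖ ≤ ρ ^ i * (2 ^ i * (a * R)) := by
    intro i
    induction i with
    | zero =>
      intro _ m hm
      simp only [pow_zero, range_one, sum_singleton, add_zero, one_mul]
      exact ((e : X →L[𝕜] Y).le_opNorm _).trans
        (mul_le_mul (by linarith) (h5 m (by omega)) (norm_nonneg _) ha0.le)
    | succ i ih =>
      intro hi m hm
      rw [pow_succ 2 i, mul_two, ← add_assoc] at hm
      have hc : 0 < ρ ^ i * (2 ^ i * (a * R)) := by positivity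
      have h8 : ∀ v : Y, ‖(ρ ^ i * (2 ^ i * (a * R)))⁻¹ • v‖ = ‖v‖ / (ρ ^ i * (2 ^ i * (a * R))) :=
        fun v => by rw [norm_smul, norm_inv, Real.norm_of_nonneg hc.le, inv_mul_eq_div]
      have h9 := h2 (x := _ • _) ((h8 _).trans_le (div_le_one_of_le₀
        (ih (by omega) (m + 2 ^ i) hm) hc.le)) (y := _ • _) ((h8 _).trans_le
        (div_le_one_of_le₀ (ih (by omega) m (le_self_add.trans hm)) hc.le)) (by
          rw [← smul_sub, h8, le_div_iff₀ hc]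
          exact (mul_le_mul_of_nonneg_left (mul_le_of_le_one_left (by positivity)
            (pow_le_one₀ h3.le h4.le)) hε.le).trans (h7 i (by omega) m hm))
      rw [← smul_add, h8, div_le_iff₀ hc] at h9
      rw [pow_succ 2 i, mul_two, sum_range_add, add_comm]
      simp only [← add_assoc]
      refine h9.trans ?_
      rw [show ρ ^ (i + 1) * (2 ^ (i + 1) * (a * R)) = 2 * ρ * (ρ ^ i * (2 ^ i * (a * R))) by ring]
      gcongr
      linarith [min_le_left δ 1]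
  have h9 := (h7 k le_rfl 0 (by omega)).trans (norm_sub_le_of_le
    (h8 k le_rfl (0 + 2 ^ k) (by omega)) (h8 k le_rfl 0
      (by simpa using Nat.pow_le_pow_right two_pos k.le_succ)))
  have : 0 < 2 ^ k * (a * R) := by positivity
  nlinarith

theorem geo (g y : ℕ → ℝ) (r : ℕ) (hr : r ≠ 0) (h0 : ∀ k, 0 ≤ g k) (h1 : ∀ k, 0 ≤ y k) (h2 : y 0 = 0)
    (h3 : ∀ k, y (k + 1) ≤ y k / 2 + g k) (K : ℕ) :
    ∑ k ∈ range K, y (k + 1) ^ r ≤ 2 ^ r * ∑ k ∈ range K, g k ^ r := by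
  have h4 : ∀ K, ∑ k ∈ range K, y (k + 1) ^ r + y K ^ r ≤ 2 ^ r * ∑ k ∈ range K, g k ^ r := by
    intro K
    induction K with
    | zero => simp [h2, hr]
    | succ K ih =>
      have h4 := (convexOn_pow (𝕜 := ℝ) r).2 (h1 K) (show 2 * g K ∈ Set.Ici (0 : ℝ) from
        mul_nonneg two_pos.le (h0 K)) (show (0 : ℝ) ≤ 1 / 2 by norm_num)
        (show (0 : ℝ) ≤ 1 / 2 by norm_num) (by norm_num)
      have h5 := pow_le_pow_left₀ (h1 _) ((h3 K).trans_eq
        (show _ = (1 / 2 : ℝ) • y K + (1 / 2 : ℝ) • (2 * g K) by simp only [smul_eq_mul]; ring)) r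
      simp only [smul_eq_mul, mul_pow] at h4 h5
      rw [sum_range_succ, sum_range_succ, mul_add]
      linarith
  linarith [h4 K, pow_nonneg (h1 K) r]

end Pool.Agent.H.MP_4bd73f_an
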